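import Pool.Agent.Helper27.BI.S5.St5n

/-! # Project BI, stage 5: module N2 (the complement of an unknotted sphere, squares) -/

set_option autoImplicit false

open scoped Manifold ContDiff Topology ComplexConjugate
open Set Filter Pool.Agent.Helper65.Barb Pool.Agent.Helper18.BI
open Pool.Agent.Helper70.BI (I4 LD NearEq IsW)
open Pool.Agent.Helper27.H
open Pool.Agent.Helper18.BI.R (LoopOK SH S2 bp)

namespace Pool.Agent.Helper27.S5

theorem N2.round_mem_wall {δ : ℝ} (hδ : δ ∈ Ioo (0 : ℝ) (1 / 100)) {p : R4}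
    (h : p.1 = 1 / 2 ∧ rsq 1 p = 1 / 25 - 2 * δ) : p ∈ wallS δ := by
  obtain ⟨h1, h2⟩ := h
  have h0 := hδ.1
  refine ⟨?_, ?_, ?_, ?_⟩
  · rw [h1]; norm_num
  · rw [h1]; norm_num
  · rw [h2]; linarith
  · rw [h2]; linarith

theorem m_N2 (ha : StN2a) (hb : StN2b) (hc : StN2c) : StN2 := by
  intro δ G D c hδ hG hU hL
  obtain ⟨Ψ, hΨ⟩ := hc δ G hδ hG
  have hδ1 := hδ.2
  -- the square
  have hcc : Continuous (fun z : ℝ × ℝ => c z.1 z.2) := hL.smooth.continuous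
  have hf : Continuous (fun z : ℝ × ℝ => Ψ (c z.1 z.2)) := Ψ.continuous.comp hcc
  have hwall : ∀ x : R4, Ψ x ∈ wallS δ → x ∉ D.U := by
    intro x hx hxU
    rw [← hΨ] at hx
    obtain ⟨y, hy, hyx⟩ := hx
    rw [Ψ.injective hyx] at hy
    rw [hU] at hxU
    exact hxU hy
  have hoff : ∀ z ∈ Icc (0 : ℝ) 1 ×ˢ Icc D.m₀ D.m₁, Ψ (c z.1 z.2) ∉ wallS δ := by
    intro z hz hw
    exact hwall _ hw (hL.inU z.1 hz.1 z.2 hz.2)
  have hbd : ∀ q ∈ Icc (0 : ℝ) 1, ∀ s ∈ Icc D.m₀ D.m₁,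
      (q = 0 ∨ q = 1 ∨ s = D.m₀ ∨ s = D.m₁) → c q s = D.c s := by
    intro q hq s hs h
    rcases h with h | h | h | h
    · rw [h, hL.start]
    · rw [h, hL.stop]
    · exact hL.froz q hq s (Or.inl h.le)
    · exact hL.froz q hq s (Or.inr h.ge)
  obtain ⟨ϖ, hϖc, hϖw, hϖK⟩ := hb δ hδ ((fun z : ℝ × ℝ => Ψ (c z.1 z.2)) ''
    (Icc (0 : ℝ) 1 ×ˢ Icc D.m₀ D.m₁)) ((isCompact_Icc.prod isCompact_Icc).image hf) (by
      rw [Set.disjoint_left]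
      rintro x ⟨z, hz, rfl⟩
      exact hoff z hz)
  have hρ0 : 0 < 1 / 25 - 2 * δ := by linarith
  have hρ2 : Real.sqrt (1 / 25 - 2 * δ) ^ 2 = 1 / 25 - 2 * δ := Real.sq_sqrt hρ0.le
  obtain ⟨H, hHc, hH01, hHu⟩ := ha (Real.sqrt (1 / 25 - 2 * δ)) D.m₀ D.m₁
    (fun z : ℝ × ℝ => Ψ (c z.1 z.2)) (fun s => Ψ (D.c s)) (Real.sqrt_pos.mpr hρ0) D.h₁
    hf.continuousOn (by
      intro z hz h
      rw [hρ2] at h
      exact hoff z hz (N2.round_mem_wall hδ h)) (by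
      intro q hq s hs h
      change Ψ (c q s) = Ψ (D.c s)
      rw [hbd q hq s hs h])
  have hK : ∀ q ∈ Icc (0 : ℝ) 1, ∀ s ∈ Icc D.m₀ D.m₁, ϖ (Ψ (c q s)) = Ψ (c q s) := by
    intro q hq s hs
    exact hϖK _ ⟨(q, s), ⟨hq, hs⟩, rfl⟩
  have hK0 : ∀ s ∈ Icc D.m₀ D.m₁, ϖ (Ψ (D.c s)) = Ψ (D.c s) := by
    intro s hs
    have h := hK 0 ⟨le_refl _, zero_le_one⟩ s hs
    rwa [hL.start] at h
  refine ⟨fun z => Ψ.symm (ϖ (H z)), ?_, ?_, ?_⟩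
  · apply Ψ.symm.continuous.comp_continuousOn
    apply hϖc.comp hHc
    intro z hz
    have h := (hHu z.1 hz.1 z.2.1 hz.2.1 z.2.2 hz.2.2).1
    rw [hρ2] at h
    exact h
  · intro q hq s hs
    obtain ⟨h0, h1⟩ := hH01 q hq s hs
    constructor
    · change Ψ.symm (ϖ (H (0, q, s))) = c q s
      rw [h0]
      change Ψ.symm (ϖ (Ψ (c q s))) = c q s
      rw [hK q hq s hs, Ψ.symm_apply_apply]
    · change Ψ.symm (ϖ (H (1, q, s))) = D.c s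
      rw [h1]
      change Ψ.symm (ϖ (Ψ (D.c s))) = D.c s
      rw [hK0 s hs, Ψ.symm_apply_apply]
  · intro u hu q hq s hs
    obtain ⟨h1, h2⟩ := hHu u hu q hq s hs
    rw [hρ2] at h1
    constructor
    · change Ψ.symm (ϖ (H (u, q, s))) ∈ D.U
      rw [hU]
      intro hmem
      apply hϖw _ h1
      rw [← hΨ]
      exact ⟨_, hmem, Ψ.apply_symm_apply _⟩
    · intro h
      change Ψ.symm (ϖ (H (u, q, s))) = D.c s
      rw [h2 h]
      change Ψ.symm (ϖ (Ψ (D.c s))) = D.c s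
      rw [hK0 s hs, Ψ.symm_apply_apply]

end Pool.Agent.Helper27.S5
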